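import Pool.Agent.Helper97.TN.St

/-!
# Project TN, module M2 (main inequality, assembly with limits)
-/

set_option autoImplicit false

namespace Pool.Agent.Helper63.TN

open NumberField IsDedekindDomain Polynomial Filter Topology
open Pool.Agent.Helper95.TT Pool.Agent.Helper24.TF Pool.Agent.Helper97.TN
open scoped Classical

private theorem avg_sub_const {G : Type} [Group G] [Finite G] (φ : G → ℝ) (a : ℝ) :
    avg (fun g => φ g - a) = avg φ - a := by
  have := Fintype.ofFinite G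
  unfold avg
  rw [finsum_eq_sum_of_fintype, finsum_eq_sum_of_fintype, Finset.sum_sub_distrib]
  have h : ((Nat.card G : ℕ) : ℝ) ≠ 0 := by
    have := Nat.card_pos (α := G)
    positivity
  rw [sub_div, Finset.sum_const, Finset.card_univ, ← Nat.card_eq_fintype_card, nsmul_eq_mul,
    mul_div_cancel_left₀ _ h]

private theorem bdd {G : Type} [Finite G] (φ : G → ℝ) : ∃ T : ℝ, 0 ≤ T ∧ ∀ g, |φ g| ≤ T := by
  have := Fintype.ofFinite G
  refine ⟨∑ g, |φ g|, Finset.sum_nonneg fun _ _ => abs_nonneg _, fun g => ?_⟩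
  exact Finset.single_le_sum (f := fun g => |φ g|) (fun _ _ => abs_nonneg _) (Finset.mem_univ g)

private theorem wt_nn {k : Type} [Field k] [NumberField k] (s : ℝ) (v : Pr k) : 0 ≤ wt s v :=
  mul_nonneg (Real.log_natCast_nonneg _) (Real.rpow_nonneg (Nat.cast_nonneg _) _)

private theorem smb {k : Type} [Field k] [NumberField k] {s : ℝ}
    (hs : Summable (fun v : Pr k => wt s v)) (g : Pr k → ℝ) (C : ℝ) (hg : ∀ v, |g v| ≤ C) :
    Summable (fun v : Pr k => g v * wt s v) := by
  refine Summable.of_norm_bounded (g := fun v => C * wt s v) (hs.mul_left C) (fun v => ?_)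
  rw [Real.norm_eq_abs, abs_mul, abs_of_nonneg (wt_nn s v)]
  exact mul_le_mul_of_nonneg_right (hg v) (wt_nn s v)

private theorem smb_le {k : Type} [Field k] [NumberField k] {s : ℝ}
    (hs : Summable (fun v : Pr k => wt s v)) (g : Pr k → ℝ) (C : ℝ) (hg : ∀ v, |g v| ≤ C) :
    |∑' v : Pr k, g v * wt s v| ≤ C * ∑' v : Pr k, wt s v := by
  have h1 := smb hs g C hg
  rw [abs_le, ← tsum_mul_left, ← tsum_neg]
  constructor
  · refine Summable.tsum_le_tsum (fun v => ?_) (hs.mul_left C).neg h1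
    have := (abs_le.1 (hg v)).1
    nlinarith [wt_nn s v]
  · refine Summable.tsum_le_tsum (fun v => ?_) h1 (hs.mul_left C)
    have := (abs_le.1 (hg v)).2
    nlinarith [wt_nn s v]

private theorem div_sub_const {G : Type} [Group G] (φ : G → ℝ) (a : ℝ) (h : Div φ) :
    Div (fun g => φ g - a) := fun g x n hn => by
  show φ (x * g ^ n * x⁻¹) - a = φ g - a
  rw [h g x n hn]

private theorem div_mul {G : Type} [Group G] (φ ψ : G → ℝ) (h : Div φ) (h' : Div ψ) :
    Div (fun g => φ g * ψ g) := fun g x n hn => by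
  show φ (x * g ^ n * x⁻¹) * ψ (x * g ^ n * x⁻¹) = φ g * ψ g
  rw [h g x n hn, h' g x n hn]

private theorem shift_tend : Tendsto (fun s : ℝ => s - 1) (𝓝[>] 2) (𝓝[>] 1) := by
  refine tendsto_nhdsWithin_iff.2 ⟨?_, ?_⟩
  · have : Tendsto (fun s : ℝ => s - 1) (𝓝 2) (𝓝 (2 - 1)) :=
      (continuous_id.sub continuous_const).tendsto 2
    rw [show (2 : ℝ) - 1 = 1 by norm_num] at this
    exact this.mono_left nhdsWithin_le_nhds
  · filter_upwards [self_mem_nhdsWithin] with s hs
    have : (2 : ℝ) < s := hs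
    show (1 : ℝ) < s - 1
    linarith

theorem hM2 : StA2 → StG3 → StP6 → StQ1 → StQ2 → StM2 := by
  intro hA2 hG3 hP6 hQ1 hQ2 k L _ _ _ _ _ _ σ R hR hσ c hc ι _ χ hχ horth C b₀ b hb₀ hb
  obtain ⟨hAs, hAt⟩ := hA2 k
  have hG := (hG3 (L ≃ₐ[k] L)).2
  -- notation
  obtain ⟨m, hm⟩ : ∃ m : ι → ℝ, ∀ i, m i = avg (la (χ i)) := ⟨_, fun _ => rfl⟩
  obtain ⟨r, hr⟩ : ∃ r : ι → ℝ, ∀ i, r i = avg (sy (χ i)) := ⟨_, fun _ => rfl⟩
  obtain ⟨lam, hlam⟩ : ∃ lam : ι → (L ≃ₐ[k] L) → ℝ, ∀ i g, lam i g = la (χ i) g - m i :=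
    ⟨fun i g => la (χ i) g - m i, fun _ _ => rfl⟩
  have hDlam : ∀ i, Div (lam i) := by
    intro i
    have := div_sub_const _ (m i) (hG (χ i) (hχ i)).2
    have e : lam i = fun g => la (χ i) g - m i := funext (hlam i)
    rw [e]; exact this
  have hDsy : ∀ i, Div (sy (χ i)) := fun i => (hG (χ i) (hχ i)).1
  have havlam : ∀ i, avg (lam i) = 0 := by
    intro i
    have e : lam i = fun g => la (χ i) g - m i := funext (hlam i)
    rw [e, avg_sub_const, hm]; ring
  obtain ⟨U, hU⟩ : ∃ U : ι → ℝ, ∀ i, U i = avg (fun g => (la (χ i) g - avg (la (χ i))) ^ 2) :=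
    ⟨_, fun _ => rfl⟩
  have havU : ∀ i j, avg (fun g => lam i g * lam j g) = if i = j then U i else 0 := by
    intro i j
    split_ifs with h
    · subst h
      rw [hU]
      congr 1
      funext g
      rw [hlam, hm, sq]
    · rw [← horth i j h]
      congr 1
      funext g
      rw [hlam, hlam, hm, hm]
  -- bounds
  choose Ts hTs0 hTs using fun i => bdd (sy (χ i))
  choose Tl hTl0 hTl using fun i => bdd (la (χ i))
  choose Tm hTm0 hTm using fun i => bdd (lam i)
  obtain ⟨T, hT⟩ : ∃ T : ℝ, ∀ i, Tm i ≤ T := by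
    refine ⟨∑ i, Tm i, fun i => ?_⟩
    exact Finset.single_le_sum (f := Tm) (fun i _ => hTm0 i) (Finset.mem_univ i)
  have hc3 : ∀ v, |c v| ≤ 3 := by
    intro v
    have := abs_le.1 (hc v)
    rw [abs_le]; constructor <;> linarith
  -- Q1
  have hρ0 : ∀ v : Pr k, |3 + c v| ≤ 6 := by
    intro v
    have := abs_le.1 (hc3 v)
    rw [abs_le]; constructor <;> linarith
  obtain ⟨hS0, hL0⟩ := hQ1 k b₀ (fun v => 3 + c v) 6 C R hR hρ0 (fun v hv => by
    have := hb₀ v hv
    rwa [mul_comm] at this)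
  have hρi : ∀ i (v : Pr k), |sy (χ i) (σ v) + c v * la (χ i) (σ v)| ≤ Ts i + 3 * Tl i := by
    intro i v
    refine (abs_add_le _ _).trans (add_le_add (hTs i _) ?_)
    rw [abs_mul]
    exact mul_le_mul (hc3 v) (hTl i _) (abs_nonneg _) (by norm_num)
  have hQi : ∀ i, _ := fun i => hQ1 k (b i) (fun v => sy (χ i) (σ v) + c v * la (χ i) (σ v))
    (Ts i + 3 * Tl i) C R hR (hρi i) (fun v hv => by
      have := hb i v hv
      rwa [mul_comm] at this)
  refine ⟨fun s hs => ⟨hS0 s hs, fun i => (hQi i).1 s hs⟩, ?_⟩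
  intro ε hε
  -- the functions y_i
  obtain ⟨y, hy⟩ : ∃ y : ι → ℝ → ℝ, ∀ i t, y i t =
      (t - 1) * ∑' v : Pr k, ((c v - 1) * lam i (σ v)) * wt t v := ⟨_, fun _ _ => rfl⟩
  have hyb : ∀ i (v : Pr k), |(c v - 1) * lam i (σ v)| ≤ 2 * T := by
    intro i v
    rw [abs_mul]
    exact mul_le_mul (hc v) ((hTm i _).trans (hT i)) (abs_nonneg _) (by norm_num)
  -- Phi_i - y_i tends to r_i - 3 m_i
  have hΦ : ∀ i, Tendsto (fun t : ℝ => (t - 1) * ∑' v : Pr k,
      ((sy (χ i) (σ v) + c v * la (χ i) (σ v)) - m i * (3 + c v)) * wt t v - y i t)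
      (𝓝[>] 1) (𝓝 (r i - 3 * m i)) := by
    intro i
    have h1 := hP6 k L σ R hR hσ (fun g => sy (χ i) g - 3 * m i)
      (div_sub_const _ _ (hDsy i))
    have h2 := hP6 k L σ R hR hσ (lam i) (hDlam i)
    rw [avg_sub_const, ← hr] at h1
    rw [havlam] at h2
    have h3 := h1.add h2
    rw [add_zero] at h3
    refine h3.congr' ?_
    filter_upwards [self_mem_nhdsWithin] with t ht
    have hw := hAs t ht
    have s1 := smb hw (fun v => sy (χ i) (σ v) - 3 * m i) (Ts i + |3 * m i|) (fun v => by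
      refine (abs_sub _ _).trans (add_le_add (hTs i _) le_rfl))
    have s2 := smb hw (fun v => lam i (σ v)) (Tm i) (fun v => hTm i _)
    have s3 := smb hw (fun v => (c v - 1) * lam i (σ v)) (2 * T) (hyb i)
    rw [hy, ← mul_add, ← mul_sub]
    congr 1
    rw [← s1.tsum_add s2, eq_sub_iff_add_eq, ← (s1.add s2).tsum_add s3]
    refine tsum_congr fun v => ?_
    rw [hlam]
    ring
  -- e_i
  obtain ⟨e, he⟩ : ∃ e : ι → ℝ → ℝ, ∀ i s, e i s =
      (s - 2) * (FS (b i) s - m i * FS b₀ s) - (r i - 3 * m i) - y i (s - 1) :=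
    ⟨_, fun _ _ => rfl⟩
  have he0 : ∀ i, Tendsto (e i) (𝓝[>] 2) (𝓝 0) := by
    intro i
    have h1 := (hQi i).2
    have h2 := hL0.const_mul (m i)
    have h3 := (hΦ i).comp shift_tend
    have h4 := ((h1.sub h2).add h3).sub_const (r i - 3 * m i)
    have e4 : (0 : ℝ) - m i * 0 + (r i - 3 * m i) - (r i - 3 * m i) = 0 := by ring
    rw [e4] at h4
    refine h4.congr' ?_
    filter_upwards [self_mem_nhdsWithin] with s hs
    have hs2 : (2 : ℝ) < s := hs
    have hw := hAs (s - 1) (by linarith)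
    have s1 := smb hw (fun v => sy (χ i) (σ v) + c v * la (χ i) (σ v)) _ (hρi i)
    have s2 := smb hw (fun v => 3 + c v) _ hρ0
    have e5 : ∑' v : Pr k, ((sy (χ i) (σ v) + c v * la (χ i) (σ v)) - m i * (3 + c v)) *
        wt (s - 1) v = ∑' v : Pr k, (sy (χ i) (σ v) + c v * la (χ i) (σ v)) * wt (s - 1) v -
        m i * ∑' v : Pr k, (3 + c v) * wt (s - 1) v := by
      rw [← tsum_mul_left, ← s1.tsum_sub (s2.mul_left (m i))]
      refine tsum_congr fun v => ?_
      ring
    simp only [Function.comp]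
    rw [he, e5, show s - 1 - 1 = s - 2 by ring]
    ring
  -- y_i bounded
  have hyB : ∀ i, ∀ᶠ t : ℝ in 𝓝[>] 1, |y i t| ≤ 2 * (2 * T) := by
    intro i
    have h1 := hAt.eventually_le_const (show (1 : ℝ) < 2 by norm_num)
    filter_upwards [h1, self_mem_nhdsWithin] with t ht1 ht
    have ht' : (1 : ℝ) < t := ht
    have hT0 : 0 ≤ 2 * T := by linarith [hTm0 i, hT i]
    rw [hy, abs_mul, abs_of_pos (by linarith : (0 : ℝ) < t - 1)]
    have h2 := smb_le (hAs t ht) (fun v => (c v - 1) * lam i (σ v)) (2 * T) (hyb i)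
    calc (t - 1) * |∑' v : Pr k, ((c v - 1) * lam i (σ v)) * wt t v|
        ≤ (t - 1) * (2 * T * ∑' v : Pr k, wt t v) :=
          mul_le_mul_of_nonneg_left h2 (by linarith)
      _ = (2 * T) * ((t - 1) * ∑' v : Pr k, wt t v) := by ring
      _ ≤ (2 * T) * 2 := mul_le_mul_of_nonneg_left ht1 hT0
      _ = 2 * (2 * T) := by ring
  -- Bessel
  have hB := hQ2 (Pr k) ι (fun t v => (t - 1) * wt t v) (fun v => c v - 1)
    (fun i v => lam i (σ v)) U 2 T
    (by
      filter_upwards [self_mem_nhdsWithin] with t ht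
      have ht' : (1 : ℝ) < t := ht
      exact ⟨fun v => mul_nonneg (by linarith) (wt_nn t v), (hAs t ht).mul_left _⟩)
    (by
      refine hAt.congr fun t => ?_
      rw [tsum_mul_left])
    hc (fun i v => (hTm i _).trans (hT i))
    (by
      intro i j
      have h1 := hP6 k L σ R hR hσ (fun g => lam i g * lam j g)
        (div_mul _ _ (hDlam i) (hDlam j))
      rw [havU] at h1
      refine h1.congr fun t => ?_
      rw [← tsum_mul_left]
      refine tsum_congr fun v => ?_
      ring)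
    (ε / 2) (by linarith)
  have hB2 := shift_tend.eventually hB
  -- the error term
  have hE : Tendsto (fun s => ∑ i, (2 * y i (s - 1) * e i s + e i s ^ 2) / U i) (𝓝[>] 2)
      (𝓝 (∑ i : ι, (0 : ℝ))) := by
    refine tendsto_finsetSum _ fun i _ => ?_
    have h1 : Tendsto (fun s => 2 * y i (s - 1) * e i s) (𝓝[>] 2) (𝓝 0) := by
      refine squeeze_zero_norm' (a := fun s => (2 * (2 * (2 * T))) * |e i s|) ?_ ?_
      · filter_upwards [shift_tend.eventually (hyB i)] with s hs
        rw [Real.norm_eq_abs, abs_mul, abs_mul, abs_two]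
        refine mul_le_mul_of_nonneg_right ?_ (abs_nonneg _)
        exact mul_le_mul_of_nonneg_left hs (by norm_num)
      · have := ((he0 i).abs).const_mul (2 * (2 * (2 * T)))
        simpa using this
    have h2 := (h1.add ((he0 i).pow 2)).div_const (U i)
    simpa using h2
  rw [Finset.sum_const_zero] at hE
  have hE2 := hE.eventually_le_const (show (0 : ℝ) < ε / 2 by linarith)
  filter_upwards [hB2, hE2] with s hs1 hs2
  have e6 : ∀ i, (∑' v : Pr k, (s - 1 - 1) * wt (s - 1) v * ((c v - 1) * lam i (σ v))) =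
      y i (s - 1) := by
    intro i
    rw [hy, ← tsum_mul_left]
    refine tsum_congr fun v => ?_
    ring
  simp only [e6] at hs1
  have e7 : ∑ i, ((s - 2) * (FS (b i) s - avg (la (χ i)) * FS b₀ s) -
      (avg (sy (χ i)) - 3 * avg (la (χ i)))) ^ 2 /
      avg (fun g => (la (χ i) g - avg (la (χ i))) ^ 2) =
      ∑ i, y i (s - 1) ^ 2 / U i + ∑ i, (2 * y i (s - 1) * e i s + e i s ^ 2) / U i := by
    rw [← Finset.sum_add_distrib]
    refine Finset.sum_congr rfl fun i _ => ?_
    rw [← hU, ← hm, ← hr, ← add_div]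
    congr 1
    have := he i s
    have e8 : (s - 2) * (FS (b i) s - m i * FS b₀ s) - (r i - 3 * m i) =
        e i s + y i (s - 1) := by rw [this]; ring
    rw [e8]
    ring
  rw [e7]
  linarith

end Pool.Agent.Helper63.TN
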